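import Pool.Agent.Helper58.SF.StB

/-!
# Project SF, module SBX: good boxes
-/

set_option autoImplicit false

namespace Pool.Agent.Helper13.SF

open Set Topology Pool.Agent.Helper13.TR Pool.Agent.Helper58.SF
open Pool.Agent.Helper13.TW (IsArc Spl IsSCC dch Chn Splt GT CSy MP Val LR MCell StARB StARX StSCL StUAR StINF StLIN StAC1 StSDM)

/-- `LH1` for open subsets. -/
private theorem lh1_open (hPSH : StPSH) {X : Type} [TopologicalSpace X] (U : Set X) (hU : IsOpen U)
    (h : LH1 X) : LH1 ↥U := by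
  intro x O hO hx
  obtain ⟨W, hW, rfl⟩ := isOpen_induced_iff.mp hO
  obtain ⟨V, hV, hxV, hVW, hz⟩ := h x.1 (W ∩ U) (hW.inter hU) ⟨hx, x.2⟩
  let i : C(↥U, X) := ⟨Subtype.val, continuous_subtype_val⟩
  have hP := hPSH ↥U X X i (ContinuousMap.id X)
  have hemb : IsEmbedding (i : ↥U → X) := IsEmbedding.subtypeVal
  have hinj : Function.Injective i := Subtype.val_injective
  refine ⟨Subtype.val ⁻¹' V, hV.preimage continuous_subtype_val, hxV, fun y hy => (hVW hy).1, ?_⟩
  intro z hzV hz0
  obtain ⟨e, he, hbe⟩ := hz (push i 1 z) (hP.2.2.1 V 1 z hzV) (by rw [hP.1, hz0, map_zero])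
  have himg : (i '' (Subtype.val ⁻¹' W : Set ↥U)) = W ∩ U := by
    ext y
    constructor
    · rintro ⟨u, hu, rfl⟩
      exact ⟨hu, u.2⟩
    · rintro ⟨h1, h2⟩
      exact ⟨⟨y, h2⟩, h1, rfl⟩
  rw [← himg] at he
  obtain ⟨e', he', rfl⟩ := hP.2.2.2.2.1 hemb _ 2 e he
  refine ⟨e', he', ?_⟩
  apply hP.2.2.2.1 hinj 1
  rw [← hbe, hP.1]

/-- the affine change of the level -/
private theorem lev {a t : ℝ} (ha : a < 1) (ht : 0 < t) : a < a + t * (1 - a) := by
  have : 0 < t * (1 - a) := mul_pos ht (by linarith)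
  linarith

theorem hSBX : StOP3 → StOPN → StPSH → StLPL → StUPC → StNIS → StBEX → StFLW → StSBX := by
  intro hOP3 hOPN hPSH hLPL hUPC hNIS hBEX hFLW P _ r R dg h x
  have := h.met
  have := h.lco
  have := h.lpc
  have hF : Flow P r R := h.box.toFlow
  have hrx := hF.pos x
  have hrx1 := hF.lt x
  obtain ⟨a, ha0, hax⟩ : ∃ a : ℝ, 0 < a ∧ a < r x := ⟨r x / 2, by linarith, by linarith⟩
  have ha1 : a < 1 := by linarith
  have h1a : 0 < 1 - a := by linarith
  set c₁ : P := R a x with hc₁
  have hrc : r c₁ = a := by rw [hc₁, hF.rR a x ha0, min_eq_left hax.le]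
  set S : Set P := {y : P | r y = a} with hS
  have : LocallyPathConnectedSpace ↥S := hLPL P r R dg h a ha0 ha1
  set c : ↥S := ⟨c₁, hrc⟩ with hc
  -- the component of the level
  set C₀ : Set ↥S := pathComponent c with hC₀
  have hC₀o : IsOpen C₀ := IsOpen.pathComponent c
  have hcC : c ∈ C₀ := mem_pathComponent_self c
  have hy₀ : ∃ y₀ ∈ C₀, y₀ ≠ c := by
    by_contra hcon
    push Not at hcon
    obtain ⟨O, hO, hOC⟩ := isOpen_induced_iff.mp hC₀o
    refine hNIS P r R dg h c₁ O hO ?_
    ext y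
    simp only [mem_inter_iff, mem_ofPred_eq, mem_singleton_iff]
    constructor
    · rintro ⟨hyO, hyr⟩
      have hyS : y ∈ S := by rw [hS, mem_ofPred_eq, hyr, hrc]
      have : (⟨y, hyS⟩ : ↥S) ∈ C₀ := by rw [← hOC]; exact hyO
      have h2 := hcon _ this
      exact congrArg Subtype.val h2
    · rintro rfl
      refine ⟨?_, rfl⟩
      have : c ∈ Subtype.val ⁻¹' O := by rw [hOC]; exact hcC
      exact this
  obtain ⟨y₀, hy₀C, hy₀c⟩ := hy₀
  -- a noncompact path connected open subset
  set F : Set ↥S := C₀ \ {y₀} with hFdef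
  have hFo : IsOpen F := hC₀o.sdiff (isClosed_singleton)
  have hcF : c ∈ F := ⟨hcC, fun h' => hy₀c h'.symm⟩
  set O : Set ↥S := pathComponentIn F c with hOdef
  have hOo : IsOpen O := hFo.pathComponentIn c
  have hOp : IsPathConnected O := isPathConnected_pathComponentIn hcF
  have hcO : c ∈ O := mem_pathComponentIn_self hcF
  have hOnc : ¬ IsCompact O := by
    intro hcomp
    have hcl : IsClopen O := ⟨hcomp.isClosed, hOo⟩
    have h2 : connectedComponent c ⊆ O := hcl.connectedComponent_subset hcO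
    have h3 : y₀ ∈ O := h2 (pathComponent_subset_component c hy₀C)
    have h4 : y₀ ∈ F := pathComponentIn_subset h3
    exact h4.2 rfl
  set V₁ : Set P := Subtype.val '' O with hV₁
  have hV₁o : ∃ O' : Set P, IsOpen O' ∧ V₁ = O' ∩ {y | r y = a} := by
    obtain ⟨O', hO', hOO⟩ := isOpen_induced_iff.mp hOo
    refine ⟨O', hO', ?_⟩
    rw [hV₁, ← hOO, Subtype.image_preimage_coe, inter_comm]
  have hV₁p : IsPathConnected V₁ := hOp.image continuous_subtype_val
  have hV₁r : ∀ v ∈ V₁, r v = a := by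
    rintro v ⟨u, _, rfl⟩
    exact u.2
  have hV₁nc : ¬ IsCompact V₁ := fun hcomp => hOnc (Subtype.isCompact_iff.mpr hcomp)
  obtain ⟨hUo, hUp⟩ := hUPC P r R dg h a ha0 ha1 V₁ hV₁o hV₁p
  set U : Set P := {y : P | a < r y ∧ R a y ∈ V₁} with hU
  have hxU : x ∈ U := ⟨hax, ⟨c, hcO, rfl⟩⟩
  -- the new clock and the new flow
  have hRU : ∀ (τ : ℝ) (y : P), a < τ → y ∈ U → R τ y ∈ U := by
    intro τ y hτ hy
    have hτ0 : 0 < τ := by linarith
    refine ⟨?_, ?_⟩
    · rw [hF.rR τ y hτ0]
      exact lt_min hτ hy.1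
    · rw [hF.RR a τ y ha0 hτ.le]
      exact hy.2
  let r' : ↥U → ℝ := fun y => (r y.1 - a) / (1 - a)
  let R' : ℝ → ↥U → ↥U := fun t y =>
    if ht : 0 < t then ⟨R (a + t * (1 - a)) y.1, hRU _ y.1 (lev ha1 ht) y.2⟩ else y
  have hR'v : ∀ (t : ℝ) (y : ↥U), 0 < t → (R' t y).1 = R (a + t * (1 - a)) y.1 := by
    intro t y ht
    simp only [R', dif_pos ht]
  have hr'v : ∀ y : ↥U, r' y = (r y.1 - a) / (1 - a) := fun y => rfl
  have hle : ∀ (t : ℝ) (y : ↥U), r' y ≤ t ↔ r y.1 ≤ a + t * (1 - a) := by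
    intro t y
    rw [hr'v, div_le_iff₀ h1a]
    constructor <;> intro h' <;> linarith
  have hle' : ∀ (t : ℝ) (y : ↥U), t ≤ r' y ↔ a + t * (1 - a) ≤ r y.1 := by
    intro t y
    rw [hr'v, le_div_iff₀ h1a]
    constructor <;> intro h' <;> linarith
  have heq : ∀ (t : ℝ) (y : ↥U), r' y = t ↔ r y.1 = a + t * (1 - a) := by
    intro t y
    rw [hr'v, div_eq_iff h1a.ne']
    constructor <;> intro h' <;> linarith
  have hflow : Flow ↥U r' R' :=
    { rc := ((hF.rc.comp continuous_subtype_val).sub continuous_const).div_const _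
      pos := fun y => div_pos (by linarith [y.2.1]) h1a
      lt := fun y => by
        rw [hr'v, div_lt_one h1a]
        linarith [hF.lt y.1]
      Rc := by
        rw [IsInducing.subtypeVal.continuousOn_iff]
        have h1 : ContinuousOn (fun p : ℝ × ↥U => R (a + p.1 * (1 - a)) p.2.1) {p | 0 < p.1} := by
          have h2 : Continuous fun p : ℝ × ↥U => ((a + p.1 * (1 - a), p.2.1) : ℝ × P) :=
            (continuous_const.add (continuous_fst.mul continuous_const)).prodMk
              (continuous_subtype_val.comp continuous_snd)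
          refine hF.Rc.comp h2.continuousOn ?_
          intro p hp
          have hp' : 0 < p.1 := hp
          exact lt_trans ha0 (lev ha1 hp')
        refine h1.congr ?_
        intro p hp
        exact hR'v p.1 p.2 hp
      rR := by
        intro t y ht
        have hlt := lev ha1 ht
        rw [hr'v, hR'v t y ht, hF.rR _ _ (lt_trans ha0 hlt), hr'v]
        rcases le_total (a + t * (1 - a)) (r y.1) with h' | h'
        · have h2 : t ≤ (r y.1 - a) / (1 - a) := (hle' t y).2 h'
          rw [min_eq_left h', min_eq_left h2]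
          field_simp
          ring
        · have h2 : (r y.1 - a) / (1 - a) ≤ t := (hle t y).2 h'
          rw [min_eq_right h', min_eq_right h2]
      Rid := by
        intro t y hy
        by_cases ht : 0 < t
        · apply Subtype.ext
          rw [hR'v t y ht]
          exact hF.Rid _ _ ((hle t y).1 hy)
        · simp only [R', dif_neg ht]
      RR := by
        intro s t y hs hst
        have ht : 0 < t := lt_of_lt_of_le hs hst
        apply Subtype.ext
        rw [hR'v s _ hs, hR'v t y ht, hR'v s y hs]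
        refine hF.RR _ _ _ (lt_trans ha0 (lev ha1 hs)) ?_
        have : s * (1 - a) ≤ t * (1 - a) := mul_le_mul_of_nonneg_right hst h1a.le
        linarith }
  have hbox : Box ↥U r' R' :=
    { toFlow := hflow
      cpt := by
        intro t t' C ht htt ht' hC hCr
        have hτ := lev ha1 ht
        have hτ0 : 0 < a + t * (1 - a) := lt_trans ha0 hτ
        have h1 : a + t * (1 - a) ≤ a + t' * (1 - a) := by
          have : t * (1 - a) ≤ t' * (1 - a) := mul_le_mul_of_nonneg_right htt h1a.le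
          linarith
        have h2 : a + t' * (1 - a) < 1 := by nlinarith
        have h3 := h.box.cpt (a + t * (1 - a)) (a + t' * (1 - a)) (Subtype.val '' C) hτ0 h1 h2
          (hC.image continuous_subtype_val) (by
            rintro y ⟨u, hu, rfl⟩
            exact (heq t u).1 (hCr u hu))
        rw [Subtype.isCompact_iff]
        convert h3 using 1
        ext y
        simp only [mem_image, mem_ofPred_eq, Subtype.exists, exists_and_right, exists_eq_right]
        constructor
        · rintro ⟨hyU, h4, h5, h6⟩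
          refine ⟨(hle' t ⟨y, hyU⟩).1 h4, (hle t' ⟨y, hyU⟩).1 h5, ?_⟩
          refine ⟨hRU _ y hτ hyU, ?_⟩
          have h7 : R' t ⟨y, hyU⟩ = ⟨R (a + t * (1 - a)) y, hRU _ y hτ hyU⟩ :=
            Subtype.ext (hR'v t ⟨y, hyU⟩ ht)
          rw [← h7]
          exact h6
        · rintro ⟨h4, h5, hRyU, h6⟩
          have hyU : y ∈ U := by
            refine ⟨lt_of_lt_of_le hτ h4, ?_⟩
            have h8 := hRyU.2
            rw [hF.RR a _ y ha0 hτ.le] at h8
            exact h8
          refine ⟨hyU, (hle' t ⟨y, hyU⟩).2 h4, (hle t' ⟨y, hyU⟩).2 h5, ?_⟩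
          have h7 : R' t ⟨y, hyU⟩ = ⟨R (a + t * (1 - a)) y, hRU _ y hτ hyU⟩ :=
            Subtype.ext (hR'v t ⟨y, hyU⟩ ht)
          rw [h7]
          exact h6 }
  refine ⟨U, r', R', fun u e => dg u (push ⟨Subtype.val, continuous_subtype_val⟩ 3 e), hUo, hxU, ?_⟩
  refine
    { met := inferInstance
      lco := hUo.locallyCompactSpace
      lpc := hUo.locallyPathConnectedSpace
      box := hbox
      hm := hOPN P U hUo h.hm
      ws := hOP3.2 P dg U h.ws hUo
      lh := lh1_open hPSH U hUo h.lh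
      pc := isPathConnected_iff_pathConnectedSpace.mp hUp
      nc := ?_ }
  intro t ht ht1 hcomp
  apply hV₁nc
  have hτ := lev ha1 ht
  have hτ1 : a + t * (1 - a) < 1 := by nlinarith
  have hRa : Continuous (R a) := (hFLW P r R hF).1 a ha0
  have h1 : IsCompact ((fun y : ↥U => R a y.1) '' {y : ↥U | r' y = t}) :=
    hcomp.image (hRa.comp continuous_subtype_val)
  convert h1 using 1
  ext v
  constructor
  · intro hv
    have hrv := hV₁r v hv
    obtain ⟨y, hy, hry⟩ := (hBEX P r R dg h).1 v (a + t * (1 - a)) (by rw [hrv]; exact hτ.le) hτ1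
    have hRy : R a y = v := by
      have := hy.2
      rwa [hrv] at this
    have hyU : y ∈ U := ⟨by rw [hry]; exact hτ, by rw [hRy]; exact hv⟩
    exact ⟨⟨y, hyU⟩, (heq t ⟨y, hyU⟩).2 hry, hRy⟩
  · rintro ⟨u, _, rfl⟩
    exact u.2.2

end Pool.Agent.Helper13.SF
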